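import Pool.Agent.helper53.SP4.Spec2

/-!
# Row sp4:S5B of project SP4 (MP_561ff4_al): semilinearity from the relations of the transvections
-/

set_option autoImplicit false

namespace Pool.Agent.SP4

open Pool.Agent.GS

section
variable {F : Type} [Field F]

theorem S5B_add_left (u v w : Fin 4 → F) : B (u + v) w = B u w + B v w := by
  simp only [B, Pi.add_apply]; ring

theorem S5B_smul_left (c : F) (u w : Fin 4 → F) : B (c • u) w = c * B u w := by
  simp only [B, Pi.smul_apply, smul_eq_mul]; ring

theorem S5B_sub_left (u v w : Fin 4 → F) : B (u - v) w = B u w - B v w := by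
  simp only [B, Pi.sub_apply]; ring

theorem S5B_smul_right (c : F) (u w : Fin 4 → F) : B u (c • w) = c * B u w := by
  simp only [B, Pi.smul_apply, smul_eq_mul]; ring

theorem S5B_comm (u w : Fin 4 → F) : B u w = B w u := by
  simp only [B]; ring

theorem S5B_self [CharP F 2] (u : Fin 4 → F) : B u u = 0 := by
  have h : B u u = (u 0 * u 3 + u 0 * u 3) + (u 1 * u 2 + u 1 * u 2) := by simp only [B]; ring
  rw [h, CharTwo.add_self_eq_zero, CharTwo.add_self_eq_zero, add_zero]

theorem S5B_nd (u : Fin 4 → F) (h : ∀ w, B u w = 0) : u = 0 := by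
  have h0 := h ![0, 0, 0, 1]
  have h1 := h ![0, 0, 1, 0]
  have h2 := h ![0, 1, 0, 0]
  have h3 := h ![1, 0, 0, 0]
  simp [B] at h0 h1 h2 h3
  funext i
  fin_cases i
  · exact h0
  · exact h1
  · exact h2
  · exact h3

/-- connection of every vector with the first unit vector -/
theorem S5B_path (R : (Fin 4 → F) → Prop) (hR : ∀ u v, B u v = 1 → (R u ↔ R v)) (h0 : R ![1, 0, 0, 0]) (u : Fin 4 → F) (hu : u ≠ 0) : R u := by
  have key : ∀ u w : Fin 4 → F, B u w = 1 → w 3 = 1 → R u := by
    intro u w h1 h2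
    refine (hR u w h1).2 ((hR ![1, 0, 0, 0] w ?_).1 h0)
    simp [B, h2]
  have key1 : ∀ u : Fin 4 → F, u 1 ≠ 0 → R u := by
    intro u h1
    refine key u ![0, 0, (1 - u 0) / u 1, 1] ?_ ?_
    · simp only [B, Matrix.cons_val_zero, Matrix.cons_val_one, Matrix.cons_val]
      field_simp
      ring
    · simp
  by_cases h1 : u 1 = 0
  · by_cases h2 : u 2 = 0
    · by_cases h3 : u 3 = 0
      · have h4 : u 0 ≠ 0 := by
          intro h4
          apply hu
          funext i
          fin_cases i
          · exact h4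
          · exact h1
          · exact h2
          · exact h3
        refine (hR u ![0, 0, 1, (u 0)⁻¹] ?_).2 ((hR ![0, 1, 0, 0] ![0, 0, 1, (u 0)⁻¹] ?_).1 (key1 _ ?_))
        · simp [B, h1, h2, h3, h4]
        · simp [B]
        · simp
      · refine key u ![(1 - u 0) / u 3, 0, 0, 1] ?_ ?_
        · simp only [B, Matrix.cons_val_zero, Matrix.cons_val_one, Matrix.cons_val]
          field_simp
          ring
        · simp
    · refine key u ![0, (1 - u 0) / u 2, 0, 1] ?_ ?_
      · simp only [B, Matrix.cons_val_zero, Matrix.cons_val_one, Matrix.cons_val]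
        field_simp
        ring
      · simp
  · exact key1 u h1

end

theorem S5B : S5B_stmt := by
  intro F _ _ _ φ hsurj h0 h3 h4 h5 h6
  -- step 1
  have s1 : ∀ u v, B u v = 1 → B (φ u) (φ v) = 1 ∧ φ (u + v) = φ u + φ v := by
    intro u v huv
    have hvu : B v u = 1 := by rw [S5B_comm, huv]
    have e1 := h4 u v
    have e2 := h4 v u
    rw [huv, one_smul] at e1
    rw [hvu, one_smul, S5B_comm (φ v) (φ u)] at e2
    obtain ⟨β, hβ⟩ : ∃ β, β = B (φ u) (φ v) := ⟨_, rfl⟩
    rw [← hβ] at e1 e2
    have e3 : (1 - β) • (φ v - φ u) = 0 := by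
      have : φ v + β • φ u = φ u + β • φ v := by rw [← e1, ← e2, add_comm]
      have h7 : (1 - β) • (φ v - φ u) = (φ v + β • φ u) - (φ u + β • φ v) := by
        rw [smul_sub, sub_smul, sub_smul, one_smul, one_smul]
        abel
      rw [h7, this, sub_self]
    have hβ1 : β = 1 := by
      rcases smul_eq_zero.1 e3 with h | h
      · exact (sub_eq_zero.1 h).symm
      · exfalso
        have h8 : B (φ u) (φ v) = 0 := by
          rw [sub_eq_zero.1 h, S5B_self]
        rw [← h3, huv] at h8
        exact one_ne_zero h8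
    refine ⟨by rw [← hβ, hβ1], ?_⟩
    rw [e2, hβ1, one_smul]
  -- step 2
  choose s hs using h6
  have s2 : ∀ u v, B u v = 1 → ∀ c, s c u = s c v := by
    intro u v huv c
    obtain ⟨b1, b2⟩ := s1 u v huv
    have hvu : B v u = 1 := by rw [S5B_comm, huv]
    have e1 := h4 u (c • v)
    have e2 := h4 v (c • u)
    rw [S5B_smul_right, huv, mul_one, hs, S5B_smul_right, b1, mul_one] at e1
    rw [S5B_smul_right, hvu, mul_one, hs, S5B_smul_right, S5B_comm, b1, mul_one] at e2
    have e3 : s c v • (φ v + φ u) = s c u • (φ v + φ u) := by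
      rw [smul_add, smul_add, ← e1, add_comm (s c u • φ v), ← e2, add_comm]
    have hne : φ v + φ u ≠ 0 := by
      rw [add_comm, ← b2, Ne, h0]
      intro h
      have h9 : v = -u := (eq_neg_of_add_eq_zero_right h)
      have h10 : B u v = 0 := by
        rw [h9, ← neg_one_smul F u, S5B_smul_right, S5B_self, mul_zero]
      rw [huv] at h10
      exact one_ne_zero h10
    have h11 : (s c v - s c u) • (φ v + φ u) = 0 := by
      rw [sub_smul, e3, sub_self]
    exact ((sub_eq_zero.1 ((smul_eq_zero.1 h11).resolve_right hne))).symm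
  -- step 3
  obtain ⟨e, he⟩ : ∃ e : Fin 4 → F, e = ![1, 0, 0, 0] := ⟨_, rfl⟩
  have s3 : ∀ u, u ≠ 0 → ∀ c, s c u = s c e := by
    intro u hu c
    refine S5B_path (fun u => s c u = s c e) ?_ ?_ u hu
    · intro u v huv
      simp only [s2 u v huv c]
    · rw [he]
  have he0 : φ e ≠ 0 := by
    rw [Ne, h0, he]
    intro h
    have := congrFun h 0
    simp at this
  have s4 : ∀ c v, φ (c • v) = s c e • φ v := by
    intro c v
    by_cases hv : v = 0
    · rw [hv, smul_zero, (h0 0).2 rfl, smul_zero]
    · rw [hs, s3 v hv]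
  have hcan : ∀ a b : F, a • φ e = b • φ e → a = b := by
    intro a b h
    have : (a - b) • φ e = 0 := by rw [sub_smul, h, sub_self]
    exact sub_eq_zero.1 ((smul_eq_zero.1 this).resolve_right he0)
  have hmul : ∀ a b, s (a * b) e = s a e * s b e := by
    intro a b
    apply hcan
    rw [← s4, mul_smul, s4, s4, mul_smul]
  have hadd : ∀ a b, s (a + b) e = s a e + s b e := by
    intro a b
    apply hcan
    rw [← s4, h5, s4, s4, add_smul]
  have hone : s 1 e = 1 := by
    apply hcan
    rw [← s4, one_smul, one_smul]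
  let σ0 : F →+* F := RingHom.mk' ⟨⟨fun c => s c e, hone⟩, hmul⟩ hadd
  have hσ0 : ∀ c, σ0 c = s c e := fun c => rfl
  have hbij : Function.Bijective σ0 := Finite.injective_iff_bijective.1 σ0.injective
  let σ : F ≃+* F := RingEquiv.ofBijective σ0 hbij
  have hσ : ∀ c, σ c = s c e := fun c => rfl
  -- step 5
  have s5 : ∀ u w, B (φ u) (φ w) = σ (B u w) := by
    intro u w
    by_cases hb : B u w = 0
    · rw [(h3 u w).1 hb, hb, map_zero]
    · have h7 : B u ((B u w)⁻¹ • w) = 1 := by
        rw [S5B_smul_right, inv_mul_cancel₀ hb]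
      have h8 := (s1 u _ h7).1
      have h9 : w = B u w • ((B u w)⁻¹ • w) := by
        rw [smul_smul, mul_inv_cancel₀ hb, one_smul]
      have h10 : φ w = s (B u w) e • φ ((B u w)⁻¹ • w) := by
        rw [← s4, ← h9]
      rw [h10, S5B_smul_right, h8, mul_one, hσ]
  -- step 6
  have s6 : ∀ u v, φ (u + v) = φ u + φ v := by
    intro u v
    have h7 : φ (u + v) - φ u - φ v = 0 := by
      refine S5B_nd _ fun z => ?_
      obtain ⟨w, rfl⟩ := hsurj z
      rw [S5B_sub_left, S5B_sub_left, s5, s5, s5, S5B_add_left, map_add]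
      ring
    rw [sub_sub, sub_eq_zero] at h7
    exact h7
  let ψ0 : (Fin 4 → F) →+ (Fin 4 → F) := AddMonoidHom.mk' φ s6
  have hψ0 : ∀ v, ψ0 v = φ v := fun v => rfl
  have hψb : Function.Bijective ψ0 := by
    refine ⟨?_, hsurj⟩
    rw [injective_iff_map_eq_zero]
    intro v hv
    exact (h0 v).1 hv
  exact ⟨AddEquiv.ofBijective ψ0 hψb, σ, fun v => rfl, fun c v => by rw [hσ]; exact s4 c v, s5⟩

end Pool.Agent.SP4
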